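import Pool.Agent.helper60.EPT.SpecS

set_option autoImplicit false

namespace Pool.Agent.EPT

open D

/-- Row FGR. -/
theorem FGR : FGR_stmt := by
  intro K j hK hj
  refine ⟨2 ^ (8 * K * j) + 2, fun n m hm => ?_⟩
  rcases lt_or_ge m (2 ^ (8 * K * j)) with h | h
  · have h1 : m / Nat.log 2 m ≤ m := Nat.div_le_self _ _
    have h2 : 0 ≤ n / j := Nat.zero_le _
    calc m / Nat.log 2 m + 1 ≤ 2 ^ (8 * K * j) + 2 := by linarith
      _ ≤ n / j + (2 ^ (8 * K * j) + 2) := Nat.le_add_left _ _
  · have hlog : 8 * K * j ≤ Nat.log 2 m := by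
      have := Nat.log_mono_right (b := 2) h
      rwa [Nat.log_pow (by norm_num)] at this
    have hpos : 0 < 8 * K * j := by positivity
    have h1 : m / Nat.log 2 m ≤ m / (8 * K * j) := Nat.div_le_div_left hlog hpos
    have h2 : m / (8 * K * j) ≤ (K * (2 * n + 4)) / (8 * K * j) := Nat.div_le_div_right hm
    have h3 : (K * (2 * n + 4)) / (8 * K * j) = (2 * n + 4) / (8 * j) := by
      have e : 8 * K * j = K * (8 * j) := by ring
      rw [e]
      exact Nat.mul_div_mul_left _ _ (by omega)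
    have h4 : (2 * n + 4) / (8 * j) ≤ (8 * (n + j)) / (8 * j) := Nat.div_le_div_right (by omega)
    have h5 : (8 * (n + j)) / (8 * j) = n / j + 1 := by
      rw [Nat.mul_div_mul_left _ _ (by norm_num)]
      exact Nat.add_div_right n (by omega)
    have h6 : m / Nat.log 2 m ≤ n / j + 1 :=
      h1.trans (h2.trans (h3.le.trans (h4.trans h5.le)))
    have h7 : 0 ≤ 2 ^ (8 * K * j) := Nat.zero_le _
    linarith

end Pool.Agent.EPT
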